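import Pool.Agent.Helper30.UP.St
import Pool.Agent.Helper30.UP.Bas

/-!
# Project UP, module DE: Delsarte's bound for the covering radius
-/

set_option autoImplicit false

noncomputable section

namespace Pool.Agent.Helper3.UP

open Finset Pool.Agent.Helper30.UP
open scoped Classical

theorem norm_add_single {n : ℕ} (u : Fin n → ZMod 2) (i : Fin n) :
    hammingNorm (u + Pi.single i 1) ≤ hammingNorm u + 1 := by
  unfold hammingNorm
  refine (card_le_card (t := insert i (univ.filter (fun j => u j ≠ 0))) ?_).trans (card_insert_le _ _)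
  intro j hj
  rw [mem_filter] at hj
  rw [mem_insert, mem_filter]
  by_cases h : j = i
  · exact Or.inl h
  · right
    refine ⟨mem_univ _, ?_⟩
    have h1 := hj.2
    rw [Pi.add_apply, Pi.single_eq_of_ne h, add_zero] at h1
    exact h1

theorem pow_sum_zero {c n : ℕ} (s : Fin n → E c) (m : ℕ) : ∀ y : E c,
    (¬ ∃ u : Fin n → ZMod 2, hammingNorm u ≤ m ∧ ∑ i, u i • s i = y) →
    ∑ x : E c, (Fh s x) ^ m * chi x y = 0 := by
  induction m with
  | zero =>
    intro y hy
    have hy0 : y ≠ 0 := by
      rintro rfl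
      refine hy ⟨0, ?_, ?_⟩
      · rw [hammingNorm_zero]
      · simp
    have h := sum_chi y
    rw [if_neg hy0] at h
    simpa using h
  | succ m ih =>
    intro y hy
    have h1 : ∀ x : E c, (Fh s x) ^ (m + 1) * chi x y = ∑ i, (Fh s x) ^ m * chi x (s i + y) := by
      intro x
      rw [← mul_sum]
      have h2 : ∑ i, chi x (s i + y) = Fh s x * chi x y := by
        unfold Fh
        rw [sum_mul]
        exact sum_congr rfl fun i _ => chi_add_right x (s i) y
      rw [h2]
      ring
    rw [sum_congr rfl fun x _ => h1 x, sum_comm]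
    refine sum_eq_zero fun i _ => ih _ ?_
    rintro ⟨u, hu, hs⟩
    refine hy ⟨u + Pi.single i 1, (norm_add_single u i).trans (by omega), ?_⟩
    have h3 : ∑ j, (u + Pi.single i 1 : Fin n → ZMod 2) j • s j = ∑ j, u j • s j + s i := by
      simp only [Pi.add_apply, add_smul, sum_add_distrib]
      congr 1
      rw [sum_eq_single i]
      · rw [Pi.single_eq_same, one_smul]
      · intro j _ hj
        rw [Pi.single_eq_of_ne hj, zero_smul]
      · intro h
        exact absurd (mem_univ i) h
    rw [h3, hs]
    rw [add_comm (s i) y, add_assoc, E_add_self, add_zero]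

theorem hDE : StDE := by
  intro c n r s hF hr y
  by_contra hy
  set P : Polynomial ℝ := ∏ ω ∈ Om s, (Polynomial.X - Polynomial.C ((n : ℝ) - 2 * ω)) with hP
  have hdeg : P.natDegree ≤ r := by
    rw [hP, Polynomial.natDegree_prod_of_monic _ _ (fun ω _ => Polynomial.monic_X_sub_C _)]
    simp only [Polynomial.natDegree_X_sub_C, sum_const, smul_eq_mul, mul_one]
    exact hr
  have hz : ∑ x : E c, P.eval (Fh s x) * chi x y = 0 := by
    have h1 : ∀ x : E c, P.eval (Fh s x) * chi x y =
        ∑ k ∈ range (r + 1), P.coeff k * ((Fh s x) ^ k * chi x y) := by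
      intro x
      rw [Polynomial.eval_eq_sum_range' (Nat.lt_succ_of_le hdeg), sum_mul]
      exact sum_congr rfl fun k _ => by ring
    rw [sum_congr rfl fun x _ => h1 x, sum_comm]
    refine sum_eq_zero fun k hk => ?_
    rw [← mul_sum, pow_sum_zero s k y, mul_zero]
    rintro ⟨u, hu, hs⟩
    rw [mem_range] at hk
    exact hy ⟨u, hu.trans (by omega), hs⟩
  have h0 : ∑ x : E c, P.eval (Fh s x) * chi x y = P.eval (n : ℝ) := by
    rw [sum_eq_single (0 : E c)]
    · rw [Fh_zero, chi_zero_left, mul_one]
    · intro x _ hx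
      have hmem : wt s x ∈ Om s := by
        unfold Om
        rw [mem_image]
        exact ⟨x, by rw [mem_filter]; exact ⟨mem_univ _, hx⟩, rfl⟩
      have : P.eval (Fh s x) = 0 := by
        rw [hP, Polynomial.eval_prod]
        refine prod_eq_zero hmem ?_
        rw [Polynomial.eval_sub, Polynomial.eval_X, Polynomial.eval_C, Fh_eq, sub_self]
      rw [this, zero_mul]
    · intro h
      exact absurd (mem_univ _) h
  rw [h0, hP, Polynomial.eval_prod, prod_eq_zero_iff] at hz
  obtain ⟨ω, hω, h1⟩ := hz
  rw [Polynomial.eval_sub, Polynomial.eval_X, Polynomial.eval_C] at h1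
  unfold Om at hω
  rw [mem_image] at hω
  obtain ⟨x, hx, rfl⟩ := hω
  rw [mem_filter] at hx
  have h2 := hF x hx.2
  have h3 : ((wt s x : ℕ) : ℝ) = 0 := by linarith
  exact h2 (by exact_mod_cast h3)

end Pool.Agent.Helper3.UP
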